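import Pool.Agent.Helper14.CKS.Grp

/-!
# Odd maps and homotopies: definitions
-/

set_option autoImplicit false

namespace Pool.Agent.Helper14.CKS.EH

open Matrix Module

/-- The change of the signs of the coordinates in `S`. -/
def chg {v : ℕ} (S : Fin v → Bool) (y : Fin v → ℝ) : Fin v → ℝ :=
  fun i => if S i = true then -y i else y i

/-- The nonzero matrices in `p` which are orthogonal to `q` for the trace form. -/
abbrev Perp {n : ℕ} (p q : Submodule ℝ (Matrix (Fin n) (Fin n) ℝ)) : Type :=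
  {x : Matrix (Fin n) (Fin n) ℝ // x ∈ p ∧ (∀ y ∈ q, (x * y).trace = 0) ∧ x ≠ 0}

/-- The matrices in `p` which are not in `q`. -/
abbrev Off {n : ℕ} (p q : Submodule ℝ (Matrix (Fin n) (Fin n) ℝ)) : Type :=
  {z : Matrix (Fin n) (Fin n) ℝ // z ∈ p ∧ z ∉ q}

/-- The matrices `k Y kᵀ` with `k` an orthogonal element of `G` and `Y` in `q`. -/
def conj {n : ℕ} (G : Subgroup (GL (Fin n) ℝ)) (q : Submodule ℝ (Matrix (Fin n) (Fin n) ℝ)) :
    Set (Matrix (Fin n) (Fin n) ℝ) :=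
  {X | ∃ k : G, ((k : GL (Fin n) ℝ) : Matrix (Fin n) (Fin n) ℝ) *
      ((k : GL (Fin n) ℝ) : Matrix (Fin n) (Fin n) ℝ)ᵀ = 1 ∧
    ∃ Y ∈ q, X = ((k : GL (Fin n) ℝ) : Matrix (Fin n) (Fin n) ℝ) * Y *
      ((k : GL (Fin n) ℝ) : Matrix (Fin n) (Fin n) ℝ)ᵀ}

/-- There is an odd continuous map from the nonzero elements of `pSpace G` orthogonal to `q` to the
complement of `q` in `pSpace G`, homotopic to the inclusion, with no value in `conj G q`. -/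
def HasOddMap {n : ℕ} (G : Subgroup (GL (Fin n) ℝ))
    (q : Submodule ℝ (Matrix (Fin n) (Fin n) ℝ)) : Prop :=
  ∃ F i : C(Perp (pSpace G) q, Off (pSpace G) q),
    (∀ x, (i x : Matrix (Fin n) (Fin n) ℝ) = (x : Matrix (Fin n) (Fin n) ℝ)) ∧
    F.Homotopic i ∧
    (∀ x x' : Perp (pSpace G) q,
      (x' : Matrix (Fin n) (Fin n) ℝ) = -(x : Matrix (Fin n) (Fin n) ℝ) →
        (F x' : Matrix (Fin n) (Fin n) ℝ) = -(F x : Matrix (Fin n) (Fin n) ℝ)) ∧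
    ∀ x, (F x : Matrix (Fin n) (Fin n) ℝ) ∉ conj G q

/-- The maps `g t`, `0 ≤ t ≤ 1`, are a homotopy of maps from the nonzero vectors of `ℝ ^ v` to the
nonzero elements of `conj G q`, and `g 0` is odd. -/
def OddHomotopy {n v : ℕ} (G : Subgroup (GL (Fin n) ℝ))
    (q : Submodule ℝ (Matrix (Fin n) (Fin n) ℝ))
    (g : ℝ → (Fin v → ℝ) → Matrix (Fin n) (Fin n) ℝ) : Prop :=
  ContinuousOn (fun z : ℝ × (Fin v → ℝ) => g z.1 z.2) (Set.Icc 0 1 ×ˢ {0}ᶜ) ∧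
  (∀ t ∈ Set.Icc (0 : ℝ) 1, ∀ y, y ≠ 0 → g t y ≠ 0 ∧ g t y ∈ conj G q) ∧
  ∀ y, y ≠ 0 → g 0 (-y) = -g 0 y

/-- The last map is invariant under the change `S` of some signs, or it is the composition of the
first map with the change `S` of an odd number of signs. -/
def EvenOrReversed {n v : ℕ} (g : ℝ → (Fin v → ℝ) → Matrix (Fin n) (Fin n) ℝ)
    (S : Fin v → Bool) : Prop :=
  ((∃ i, S i = true) ∧ ∀ y, y ≠ 0 → g 1 (chg S y) = g 1 y) ∨
  (Odd (Finset.univ.filter fun i => S i = true).card ∧ ∀ y, y ≠ 0 → g 1 y = g 0 (chg S y))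

/-- The elements of `p₁` are `U * A * Wᴴ`, and `p₂` is zero on the columns of `W` and on as many
orthonormal columns `J` orthogonal to them as `U` has; or the same for the transposes. -/
def Blocks {K : Type} [RCLike K] {r n a b : ℕ} (U : Matrix (Fin r) (Fin a) K)
    (W : Matrix (Fin n) (Fin b) K) (p₁ p₂ : Submodule ℝ (Matrix (Fin r) (Fin n) K)) : Prop :=
  Uᴴ * U = 1 ∧ Wᴴ * W = 1 ∧ (∀ X ∈ p₁, ∃ A : Matrix (Fin a) (Fin b) K, X = U * A * Wᴴ) ∧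
  ((∃ J : Matrix (Fin n) (Fin a) K, Jᴴ * J = 1 ∧ Wᴴ * J = 0 ∧
      ∀ X ∈ p₂, X * W = 0 ∧ X * J = 0) ∨
    ∃ J : Matrix (Fin r) (Fin b) K, Jᴴ * J = 1 ∧ Uᴴ * J = 0 ∧
      ∀ X ∈ p₂, Xᴴ * U = 0 ∧ Xᴴ * J = 0)

end Pool.Agent.Helper14.CKS.EH
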