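import Pool.Agent.Helper17.CKF.O8
import Pool.Agent.Helper29.CKP.Coind
import Pool.Agent.Helper29.CKP.Bridge
import Pool.Agent.Helper43.EH.Block

/-!
# An obstruction to compact Clifford-Klein forms: odd maps and homotopies

The definitions `IsReductive`, `pSpace` are in `Pool/Agent/Helper20/CKP/Defs.lean`, `AdmitsCocompact`
is in `Pool/Agent/Helper40/CK/Defs.lean`, `UpqK K r n` (the group `O(r, n)` or `U(r, n)`, as a group
of real matrices) and `pcK K r n B` (the real form of the matrix with the blocks `0`, `B`, the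
conjugate transpose of `B`, `0`) are in `Pool/Agent/Helper29/CKP/UpqK.lean`, `chg S` (the change of
the signs of the coordinates in `S`) is in `Pool/Agent/Helper20/EH/Lin.lean`.

Let `G` be a real reductive linear group, `H` a reductive subgroup of `G`, `K` the group of the
orthogonal elements of `G`, `p` and `q` the spaces of the Cartan decompositions of `G` and `H`,
and `C` the set of the elements of `p` conjugate under `K` to an element of `q`. Suppose that the
homogeneous space of `G` by `H` admits a cocompact discontinuous group. Then there is an odd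
continuous map from the nonzero vectors of `p` orthogonal to `q` to `p` minus `C`, homotopic to the
inclusion as a map to `p` minus `q`. Let `g t`, `0 ≤ t ≤ 1`, be a homotopy of maps from `ℝ ^ v`
minus the origin to `C` minus the origin and let `g 0` be odd. Then `v ≤ dim q`, and `v < dim q` if
`g 1` is invariant for a change of the signs of some coordinates, or if `g 1` is the composition of
`g 0` with a change of an odd number of signs. So the inclusion of `q` minus the origin in `C` minus
the origin is homotopic neither to an even map nor to its composition with a reflection.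

For `G = U(r, n)` over the real or the complex numbers: let the matrices `X` of `p_H` be the sums of
the elements of two spaces `p₁` and `p₂`, where the elements of `p₁` are `U * A * Wᴴ` for fixed
matrices `U`, `W` with `a` and `b` orthonormal columns, and let `J` be a matrix with `a` orthonormal
columns orthogonal to the columns of `W` and `X * W = 0`, `X * J = 0` for `X` in `p₂` (or let the
same be true for the conjugate transposes). If there is a cocompact discontinuous group, then
`p₁ = 0`. In particular, for a noncompact reductive subgroup `H₁` of `U(r₁, n₁)` and any reductive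
subgroup `H₂` of `U(r₂, n₂)` the homogeneous space of `U(r, n)`, `r ≥ r₁ + r₂`, by `H₁ × H₂` has no
compact Clifford-Klein form if `n ≥ n₁ + n₂ + r₁`.

Outline of the proof.
* The odd map `F`: see `Pool/Agent/Helper17/CKF` (`odd_map`, `odd_map_homotopic`).
* `exists_join`: the join `F x - g t y` of `F` with the maps `g t` is a homotopy of maps of spheres
  of dimension `dim p - 1` if `v = dim q`; it starts with an odd map.
* `ring_zero`: a continuous map from the ring between two cubes to the space of the same dimension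
  which is odd on the outer boundary and invariant for a change of signs on the inner boundary has a
  zero. The number of the full flags of a fine grid (Helper29, `T_count`) is odd; the flags of the
  inner cube cancel in pairs.
* `reversal` (Helper59): the same with the condition that the inner boundary values are the outer
  ones composed with a change of an odd number of signs; the flags are counted with orientation signs.
* `no_block` (Helper43): the path `cos t * (A, 0) + sin t * (0, s(A))`, `s(A)` the positive square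
  root of `A * Aᴴ`, has constant products with its conjugate transpose, starts at `(A, 0)` and ends at
  an even map.
-/

namespace Pool.Agent.Helper14.CKS.EvenHomotopies

open Matrix Module Pool.Agent.Helper40.CK Pool.Agent.Helper20.CKP Pool.Agent.Helper29.CKP
  Pool.Agent.Helper20.EH

/-- The nonzero matrices in `p` which are orthogonal to `q` for the trace form. -/
abbrev Perp {n : ℕ} (p q : Submodule ℝ (Matrix (Fin n) (Fin n) ℝ)) : Type :=
  {x : Matrix (Fin n) (Fin n) ℝ // x ∈ p ∧ (∀ y ∈ q, (x * y).trace = 0) ∧ x ≠ 0}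

/-- The matrices in `p` which are not in `q`. -/
abbrev Off {n : ℕ} (p q : Submodule ℝ (Matrix (Fin n) (Fin n) ℝ)) : Type :=
  {z : Matrix (Fin n) (Fin n) ℝ // z ∈ p ∧ z ∉ q}

/-- The matrices `k Y kᵀ` with `k` an orthogonal element of `G` and `Y` in `q`. -/
def conj {n : ℕ} (G : Subgroup (GL (Fin n) ℝ)) (q : Submodule ℝ (Matrix (Fin n) (Fin n) ℝ)) :
    Set (Matrix (Fin n) (Fin n) ℝ) :=
  {X | ∃ k : G, ((k : GL (Fin n) ℝ) : Matrix (Fin n) (Fin n) ℝ) *
      ((k : GL (Fin n) ℝ) : Matrix (Fin n) (Fin n) ℝ)ᵀ = 1 ∧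
    ∃ Y ∈ q, X = ((k : GL (Fin n) ℝ) : Matrix (Fin n) (Fin n) ℝ) * Y *
      ((k : GL (Fin n) ℝ) : Matrix (Fin n) (Fin n) ℝ)ᵀ}

/-- There is an odd continuous map from the nonzero elements of `pSpace G` orthogonal to `q` to the
complement of `q` in `pSpace G`, homotopic to the inclusion, with no value in `conj G q`. -/
def HasOddMap {n : ℕ} (G : Subgroup (GL (Fin n) ℝ))
    (q : Submodule ℝ (Matrix (Fin n) (Fin n) ℝ)) : Prop :=
  ∃ F i : C(Perp (pSpace G) q, Off (pSpace G) q),
    (∀ x, (i x : Matrix (Fin n) (Fin n) ℝ) = (x : Matrix (Fin n) (Fin n) ℝ)) ∧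
    F.Homotopic i ∧
    (∀ x x' : Perp (pSpace G) q,
      (x' : Matrix (Fin n) (Fin n) ℝ) = -(x : Matrix (Fin n) (Fin n) ℝ) →
        (F x' : Matrix (Fin n) (Fin n) ℝ) = -(F x : Matrix (Fin n) (Fin n) ℝ)) ∧
    ∀ x, (F x : Matrix (Fin n) (Fin n) ℝ) ∉ conj G q

/-- The maps `g t`, `0 ≤ t ≤ 1`, are a homotopy of maps from the nonzero vectors of `ℝ ^ v` to the
nonzero elements of `conj G q`, and `g 0` is odd. -/
def OddHomotopy {n v : ℕ} (G : Subgroup (GL (Fin n) ℝ))
    (q : Submodule ℝ (Matrix (Fin n) (Fin n) ℝ))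
    (g : ℝ → (Fin v → ℝ) → Matrix (Fin n) (Fin n) ℝ) : Prop :=
  ContinuousOn (fun z : ℝ × (Fin v → ℝ) => g z.1 z.2) (Set.Icc 0 1 ×ˢ {0}ᶜ) ∧
  (∀ t ∈ Set.Icc (0 : ℝ) 1, ∀ y, y ≠ 0 → g t y ≠ 0 ∧ g t y ∈ conj G q) ∧
  ∀ y, y ≠ 0 → g 0 (-y) = -g 0 y

/-- The last map is invariant under the change `S` of some signs, or it is the composition of the
first map with the change `S` of an odd number of signs. -/
def EvenOrReversed {n v : ℕ} (g : ℝ → (Fin v → ℝ) → Matrix (Fin n) (Fin n) ℝ)
    (S : Fin v → Bool) : Prop :=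
  ((∃ i, S i = true) ∧ ∀ y, y ≠ 0 → g 1 (chg S y) = g 1 y) ∨
  (Odd (Finset.univ.filter fun i => S i = true).card ∧ ∀ y, y ≠ 0 → g 1 y = g 0 (chg S y))

/-- The elements of `p₁` are `U * A * Wᴴ`, and `p₂` is zero on the columns of `W` and on as many
orthonormal columns `J` orthogonal to them as `U` has; or the same for the transposes. -/
def Blocks {K : Type} [RCLike K] {r n a b : ℕ} (U : Matrix (Fin r) (Fin a) K)
    (W : Matrix (Fin n) (Fin b) K) (p₁ p₂ : Submodule ℝ (Matrix (Fin r) (Fin n) K)) : Prop :=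
  Uᴴ * U = 1 ∧ Wᴴ * W = 1 ∧ (∀ X ∈ p₁, ∃ A : Matrix (Fin a) (Fin b) K, X = U * A * Wᴴ) ∧
  ((∃ J : Matrix (Fin n) (Fin a) K, Jᴴ * J = 1 ∧ Wᴴ * J = 0 ∧
      ∀ X ∈ p₂, X * W = 0 ∧ X * J = 0) ∨
    ∃ J : Matrix (Fin r) (Fin b) K, Jᴴ * J = 1 ∧ Uᴴ * J = 0 ∧
      ∀ X ∈ p₂, Xᴴ * U = 0 ∧ Xᴴ * J = 0)

theorem result :
    (∀ {n : ℕ} {G : Subgroup (GL (Fin n) ℝ)} {H : Subgroup G}, IsReductive G →
      IsReductive (H.map G.subtype) → AdmitsCocompact H →
      HasOddMap G (pSpace (H.map G.subtype)) ∧
      ∀ (v : ℕ) (g : ℝ → (Fin v → ℝ) → Matrix (Fin n) (Fin n) ℝ),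
        OddHomotopy G (pSpace (H.map G.subtype)) g →
        v ≤ finrank ℝ (pSpace (H.map G.subtype)) ∧
        ∀ S : Fin v → Bool, EvenOrReversed g S →
          v < finrank ℝ (pSpace (H.map G.subtype))) ∧
    ∀ {K : Type} [RCLike K] {r n a b : ℕ} {H : Subgroup (UpqK K r n)},
      IsReductive (H.map (UpqK K r n).subtype) → AdmitsCocompact H →
      ∀ (U : Matrix (Fin r) (Fin a) K) (W : Matrix (Fin n) (Fin b) K)
        (p₁ p₂ : Submodule ℝ (Matrix (Fin r) (Fin n) K)),
        pSpace (H.map (UpqK K r n).subtype) = (p₁ ⊔ p₂).map (pcK K r n) →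
        Blocks U W p₁ p₂ → p₁ = ⊥ := by
  refine ⟨?_, ?_⟩
  · intro n G H hG hH h
    obtain ⟨Γ, hΓ⟩ := h
    have hCG := Pool.Agent.Helper29.CKP.cartan_top hG
    have hCH := Pool.Agent.Helper29.CKP.cartan_one hG.closed hH
    refine ⟨?_, ?_⟩
    · obtain ⟨F, i, h1, h2, h3, h4⟩ := Pool.Agent.Helper17.CKF.odd_map_homotopic _ hCG hCH hΓ
      refine ⟨F, i, h1, h2, h3, ?_⟩
      rintro x ⟨k, hk, Y, hY, e⟩
      exact h4 x k hk Y hY e
    · rintro v g ⟨hg, hy, hodd⟩
      have h01 : (0 : ℝ) ∈ Set.Icc (0 : ℝ) 1 := ⟨le_rfl, zero_le_one⟩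
      refine ⟨?_, ?_⟩
      · refine Pool.Agent.Helper29.CKP.odd_coindex _ hCG hCH hΓ (g 0) ?_ hodd
          (fun y h0 => (hy 0 h01 y h0).1) (fun y h0 => (hy 0 h01 y h0).2)
        exact hg.comp (f := fun y : Fin v → ℝ => ((0 : ℝ), y)) (by fun_prop)
          fun y hy => ⟨h01, hy⟩
      · rintro S (⟨h1, h2⟩ | ⟨h1, h2⟩)
        · exact even_coindex _ hCG hCH hΓ g hg (fun t ht y h0 => (hy t ht y h0).1)
            (fun t ht y h0 => (hy t ht y h0).2) hodd S h1 h2
        · exact rev_coindex _ hCG hCH hΓ g hg (fun t ht y h0 => (hy t ht y h0).1)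
            (fun t ht y h0 => (hy t ht y h0).2) hodd S h1 h2
  · rintro K _ r n a b H hH had U W p₁ p₂ hp ⟨hU, hW, h1, h2⟩
    exact Pool.Agent.Helper43.EH.no_block hH had U W hU hW p₁ p₂ hp h1 h2

end Pool.Agent.Helper14.CKS.EvenHomotopies
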