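import Pool.Agent.Helper14.CKS.UpqB
import Pool.Agent.Helper14.CKS.EH
import Pool.Agent.Helper14.CKS.EvenHomotopiesOld

/-! Odd maps and homotopies, with the definitions of `Grp`, `Upq`, `EH`. -/

set_option autoImplicit false

namespace Pool.Agent.Helper14.CKS.EHM

open Matrix Module Pool.Agent.Helper14.CKS.EH

theorem hasOddMap_iff {n : ℕ} (G : Subgroup (GL (Fin n) ℝ))
    (q : Submodule ℝ (Matrix (Fin n) (Fin n) ℝ)) :
    HasOddMap G q ↔ Pool.Agent.Helper14.CKS.EvenHomotopies.HasOddMap G q := Iff.rfl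

theorem main :
    (∀ {n : ℕ} {G : Subgroup (GL (Fin n) ℝ)} {H : Subgroup G}, IsReductive G →
      IsReductive (H.map G.subtype) → AdmitsCocompact H →
      HasOddMap G (pSpace (H.map G.subtype)) ∧
      ∀ (v : ℕ) (g : ℝ → (Fin v → ℝ) → Matrix (Fin n) (Fin n) ℝ),
        OddHomotopy G (pSpace (H.map G.subtype)) g →
        v ≤ finrank ℝ (pSpace (H.map G.subtype)) ∧
        ∀ S : Fin v → Bool, EvenOrReversed g S →
          v < finrank ℝ (pSpace (H.map G.subtype))) ∧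
    ∀ {K : Type} [RCLike K] {r n a b : ℕ} {H : Subgroup (UpqK K r n)},
      IsReductive (H.map (UpqK K r n).subtype) → AdmitsCocompact H →
      ∀ (U : Matrix (Fin r) (Fin a) K) (W : Matrix (Fin n) (Fin b) K)
        (p₁ p₂ : Submodule ℝ (Matrix (Fin r) (Fin n) K)),
        pSpace (H.map (UpqK K r n).subtype) = (p₁ ⊔ p₂).map (pcK K r n) →
        Blocks U W p₁ p₂ → p₁ = ⊥ := by
  obtain ⟨h1, h2⟩ := Pool.Agent.Helper14.CKS.EvenHomotopies.result
  refine ⟨fun {n G H} hG hH h => ?_, fun {K} _ {r n a b H} hH h U W p₁ p₂ hp hb => ?_⟩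
  · obtain ⟨h3, h4⟩ := h1 (H := H) (reductive_iff.1 hG) (reductive_iff.1 hH) (admits_iff.1 h)
    exact ⟨h3, fun v g hg => h4 v g hg⟩
  · exact h2 (H := H) (reductive_iff.1 hH) (admits_iff.1 h) U W p₁ p₂ hp hb

end Pool.Agent.Helper14.CKS.EHM
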