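import Mathlib

/-!
# Cocompact discontinuous groups of homogeneous spaces of reductive linear groups: definitions
-/

set_option autoImplicit false

namespace Pool.Agent.Helper14.CKS

open Matrix Module

/-- `Γ` is a cocompact discontinuous group for `G ⧸ H`: it is a discrete subgroup of `G` and acts on
`G ⧸ H` by left translation freely and properly discontinuously (for every compact `K` only finitely
many `γ` in `Γ` satisfy `γ K ∩ K ≠ ∅`), and `Γ \ (G ⧸ H)` is compact. -/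
def IsCocompactDiscontinuousGroup {G : Type} [Group G] [TopologicalSpace G] (Γ H : Subgroup G) :
    Prop :=
  DiscreteTopology Γ ∧ (∀ γ ∈ Γ, ∀ x : G ⧸ H, γ • x = x → γ = 1) ∧
    (∀ K : Set (G ⧸ H), IsCompact K → {γ : G | γ ∈ Γ ∧ ∃ x ∈ K, γ • x ∈ K}.Finite) ∧
    CompactSpace (MulAction.orbitRel.Quotient Γ (G ⧸ H))

/-- `G ⧸ H` admits a cocompact discontinuous group. -/
def AdmitsCocompact {G : Type} [Group G] [TopologicalSpace G] (H : Subgroup G) : Prop :=
  ∃ Γ : Subgroup G, IsCocompactDiscontinuousGroup Γ H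

/-- The subgroup `L` acts properly on `G ⧸ H`, and `L \ (G ⧸ H)` is compact. -/
def ActsProperlyCocompactly {G : Type} [Group G] [TopologicalSpace G] (L H : Subgroup G) : Prop :=
  (∀ C : Set G, IsCompact C → ∃ D : Set G, IsCompact D ∧
    ∀ l ∈ L, ∀ c ∈ C, ∀ c' ∈ C, ∀ h ∈ H, l * c = c' * h → l ∈ D) ∧
  ∃ C : Set G, IsCompact C ∧ ∀ g : G, ∃ l ∈ L, ∃ c ∈ C, ∃ h ∈ H, g = l * c * h

/-- `Γ` is a torsion-free discrete subgroup of `L` with compact quotient. -/
def IsTorsionFreeLattice {G : Type} [Group G] [TopologicalSpace G] (Γ L : Subgroup G) : Prop :=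
  Γ ≤ L ∧ DiscreteTopology Γ ∧ (∀ γ ∈ Γ, IsOfFinOrder γ → γ = 1) ∧
    ∃ C : Set G, IsCompact C ∧ ∀ l ∈ L, ∃ γ ∈ Γ, ∃ c ∈ C, l = γ * c

/-- The exponential of a real matrix, as an element of `GL(n, ℝ)`. -/
noncomputable def expGL {n : ℕ} (X : Matrix (Fin n) (Fin n) ℝ) : GL (Fin n) ℝ :=
  (Matrix.isUnit_exp X).unit

/-- `G` is a closed subgroup of `GL(n, ℝ)`, stable under transposition, which contains all real
powers of its positive definite elements (so `G = (G ∩ O(n)) exp (pSpace G)`, the Cartan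
decomposition). Every real reductive linear group is conjugate to such a group. -/
def IsReductive {n : ℕ} (G : Subgroup (GL (Fin n) ℝ)) : Prop :=
  IsClosed (G : Set (GL (Fin n) ℝ)) ∧
  (∀ g ∈ G, ∃ g' ∈ G, (g' : Matrix (Fin n) (Fin n) ℝ) = (g : Matrix (Fin n) (Fin n) ℝ)ᵀ) ∧
  ∀ X : Matrix (Fin n) (Fin n) ℝ, Xᵀ = X → expGL X ∈ G → ∀ t : ℝ, expGL (t • X) ∈ G

/-- The space `p` of the Cartan decomposition of `G`: the symmetric matrices `X` with `exp X` in
`G`. -/
noncomputable def pSpace {n : ℕ} (G : Subgroup (GL (Fin n) ℝ)) :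
    Submodule ℝ (Matrix (Fin n) (Fin n) ℝ) :=
  Submodule.span ℝ {X | Xᵀ = X ∧ expGL X ∈ G}

end Pool.Agent.Helper14.CKS
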