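import Pool.Agent.Helper14.CKS.Grp
import Pool.Agent.Helper20.CKP.Defs

/-! The definitions of `Grp` agree with those of `Helper40/CK/Defs` and `Helper20/CKP/Defs`. -/

set_option autoImplicit false

namespace Pool.Agent.Helper14.CKS

open Matrix Module

variable {G : Type} [Group G] [TopologicalSpace G]

theorem cocompact_iff {Γ H : Subgroup G} : IsCocompactDiscontinuousGroup Γ H ↔
    Pool.Agent.Helper40.CK.IsCocompactDiscontinuousGroup Γ H :=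
  ⟨fun h => ⟨⟨h.1, h.2.1, h.2.2.1⟩, h.2.2.2⟩, fun h => ⟨h.discrete, h.free, h.proper, h.compact⟩⟩

theorem admits_iff {H : Subgroup G} : AdmitsCocompact H ↔
    Pool.Agent.Helper40.CK.AdmitsCocompact H :=
  ⟨fun ⟨Γ, h⟩ => ⟨Γ, cocompact_iff.1 h⟩, fun ⟨Γ, h⟩ => ⟨Γ, cocompact_iff.2 h⟩⟩

theorem acts_iff {L H : Subgroup G} : ActsProperlyCocompactly L H ↔
    Pool.Agent.Helper20.CKP.ActsProperlyCocompactly L H :=
  ⟨fun h => ⟨h.1, h.2⟩, fun h => ⟨h.proper, h.cocompact⟩⟩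

theorem lattice_iff {Γ L : Subgroup G} : IsTorsionFreeLattice Γ L ↔
    Pool.Agent.Helper20.CKP.IsTorsionFreeLattice Γ L :=
  ⟨fun h => ⟨h.1, h.2.1, h.2.2.1, h.2.2.2⟩, fun h => ⟨h.le, h.discrete, h.torsionFree, h.cocompact⟩⟩

theorem reductive_iff {n : ℕ} {G : Subgroup (GL (Fin n) ℝ)} : IsReductive G ↔
    Pool.Agent.Helper20.CKP.IsReductive G :=
  ⟨fun h => ⟨h.1, h.2.1, h.2.2⟩, fun h => ⟨h.closed, h.transpose, h.power⟩⟩

theorem pSpace_eq {n : ℕ} (G : Subgroup (GL (Fin n) ℝ)) :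
    pSpace G = Pool.Agent.Helper20.CKP.pSpace G := rfl

end Pool.Agent.Helper14.CKS
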