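import Pool.Agent.Helper14.CKS.Grp

/-!
# Products of reductive linear groups of real rank one: definitions
-/

set_option autoImplicit false

namespace Pool.Agent.Helper14.CKS

open Matrix Module

/-- The real rank of `G` is at most one and `pSpace G` is not a line: two commuting elements of
`pSpace G` are linearly dependent, and the dimension of `pSpace G` is not `1`. -/
def IsRankOne {n : ℕ} (G : Subgroup (GL (Fin n) ℝ)) : Prop :=
  (∀ X ∈ pSpace G, ∀ Y ∈ pSpace G, X * Y = Y * X → ¬ LinearIndependent ℝ ![X, Y]) ∧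
    finrank ℝ (pSpace G) ≠ 1

variable {r : ℕ} {n : Fin r → ℕ} {G : ∀ i, Subgroup (GL (Fin (n i)) ℝ)}

/-- `IsReductive` for a subgroup `H` of the product of the groups `G i`: `H` is closed, stable under
transposition and contains all real powers of its positive definite elements. -/
def IsReductiveIn (H : Subgroup (∀ i, G i)) : Prop :=
  IsClosed (H : Set (∀ i, G i)) ∧
  (∀ h ∈ H, ∃ h' ∈ H, ∀ i, (((h' i : GL (Fin (n i)) ℝ)) : Matrix (Fin (n i)) (Fin (n i)) ℝ) =
    (((h i : GL (Fin (n i)) ℝ)) : Matrix (Fin (n i)) (Fin (n i)) ℝ)ᵀ) ∧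
  ∀ X : ∀ i, Matrix (Fin (n i)) (Fin (n i)) ℝ, (∀ i, (X i)ᵀ = X i) →
    (∃ h ∈ H, ∀ i, (h i : GL (Fin (n i)) ℝ) = expGL (X i)) →
    ∀ t : ℝ, ∃ h ∈ H, ∀ i, (h i : GL (Fin (n i)) ℝ) = expGL (t • X i)

/-- The space `p` of the Cartan decomposition of `H`: the families of symmetric matrices `X i`
such that the family of the `exp (X i)` is in `H`. -/
noncomputable def pSub (H : Subgroup (∀ i, G i)) :
    Submodule ℝ (∀ i, Matrix (Fin (n i)) (Fin (n i)) ℝ) :=
  Submodule.span ℝ {X | (∀ i, (X i)ᵀ = X i) ∧ ∃ h ∈ H, ∀ i, (h i : GL (Fin (n i)) ℝ) = expGL (X i)}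

/-- The projection of `pSub H` to the sum of the spaces `pSpace (G i)`, `i` in `B`, is bijective. -/
def ProjBij (H : Subgroup (∀ i, G i)) (B : Finset (Fin r)) : Prop :=
  ∀ Y : ∀ i, Matrix (Fin (n i)) (Fin (n i)) ℝ, (∀ i ∈ B, Y i ∈ pSpace (G i)) →
    ∃! X : ∀ i, Matrix (Fin (n i)) (Fin (n i)) ℝ, X ∈ pSub H ∧ ∀ i ∈ B, X i = Y i

/-- The product `L` of the `G i` with `i` not in `B`, a subgroup of the product of all `G i`. -/
def cofactor (G : ∀ i, Subgroup (GL (Fin (n i)) ℝ)) (B : Finset (Fin r)) :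
    Subgroup (∀ i, G i) where
  carrier := {g | ∀ i ∈ B, g i = 1}
  mul_mem' := fun {a b} ha hb i hi => by
    rw [Pi.mul_apply, ha i hi, hb i hi, mul_one]
  one_mem' := fun i _ => rfl
  inv_mem' := fun {a} ha i hi => by
    rw [Pi.inv_apply, ha i hi, inv_one]

end Pool.Agent.Helper14.CKS
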