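import Pool.Agent.Helper14.CKS.GrpB
import Pool.Agent.Helper14.CKS.Pro

/-! The definitions of `Pro` agree with those of `Helper20/CKP/Defs`. -/

set_option autoImplicit false

namespace Pool.Agent.Helper14.CKS

open Matrix Module

theorem rankOne_iff {n : ℕ} {G : Subgroup (GL (Fin n) ℝ)} : IsRankOne G ↔
    Pool.Agent.Helper20.CKP.IsRankOne G := Iff.rfl

variable {r : ℕ} {n : Fin r → ℕ} {G : ∀ i, Subgroup (GL (Fin (n i)) ℝ)}

theorem reductiveIn_iff {H : Subgroup (∀ i, G i)} : IsReductiveIn H ↔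
    Pool.Agent.Helper20.CKP.IsReductiveIn H :=
  ⟨fun h => ⟨h.1, h.2.1, h.2.2⟩, fun h => ⟨h.closed, h.transpose, h.power⟩⟩

theorem projBij_iff {H : Subgroup (∀ i, G i)} {B : Finset (Fin r)} : ProjBij H B ↔
    Pool.Agent.Helper20.CKP.ProjBij H B := Iff.rfl

theorem cofactor_eq (B : Finset (Fin r)) :
    cofactor G B = Pool.Agent.Helper20.CKP.cofactor G B := rfl

end Pool.Agent.Helper14.CKS
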