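import Pool.Agent.Helper20.CKP.Asm
import Pool.Agent.Helper20.CKP.Conv
import Pool.Agent.Helper17.CKF.OG2
import Pool.Agent.Helper29.CKP.Bridge

/-!
# Compact Clifford-Klein forms of products of groups of real rank one

The definitions are in `Pool/Agent/Helper20/CKP/Defs.lean` and `Pool/Agent/Helper40/CK/Defs.lean`.

Let `G i`, `i : Fin r`, be real reductive linear groups of real rank at most one (compact groups are
allowed, the real line and `O(1,1)` are not), and let `H` be a reductive subgroup of their product.
If the homogeneous space of the product by `H` admits a cocompact discontinuous group, then for a set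
`B` of indices the projection of the space `p` of `H` to the sum of the spaces `p` of the `G i`, `i`
in `B`, is bijective; and then the product of the other `G i` acts properly and cocompactly, which
gives the standard quotients.

Outline of the proof. Let `Q` be the orthogonal complement of `p_H` in `p`, and `C` the set of the
elements of `p` which are conjugate under the maximal compact group `K` to an element of `p_H`.
* A cocompact discontinuous group gives a continuous map `s` from the group to `H` such that, for
  `t = g * s g`, every element `t₁⁻¹ * t₂` which is in `K H K` is in a fixed compact set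
  (`exists_selection`, Helper17). Applied to `g = exp (R X)`, `X` in `Q`, for a large `R`, this gives
  an odd continuous map from `Q` minus the origin to `p` minus `C` (`odd_map`, Helper17).
* All elements of `p_H` are conjugate into a maximal abelian subspace (`exists_abelian`, Helper29),
  and in rank one the compact group acts transitively on the unit sphere of `pSpace (G i)`
  (`trans_group`), so `C` is given by the norms of the components, which form a linear space up to
  signs.
* A generic linear functional and the theorem of Borsuk and Ulam (`exists_subset`) give a set `B` for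
  which the projection of `p_H` is injective and the dimensions agree (`core`, `projBij_of`).
-/

namespace Pool.Agent.Helper14.CKS.RankOneProducts

open Matrix Module Pool.Agent.Helper40.CK Pool.Agent.Helper20.CKP

theorem result {r : ℕ} {n : Fin r → ℕ} {G : ∀ i, Subgroup (GL (Fin (n i)) ℝ)}
    (hG : ∀ i, IsReductive (G i)) (h1 : ∀ i, IsRankOne (G i))
    {H : Subgroup (∀ i, G i)} (hH : IsReductiveIn H) :
    (AdmitsCocompact H → ∃ B : Finset (Fin r), ProjBij H B) ∧
    (∀ B : Finset (Fin r), ProjBij H B → ActsProperlyCocompactly (cofactor G B) H ∧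
      ∀ Γ : Subgroup (∀ i, G i), IsTorsionFreeLattice Γ (cofactor G B) →
        IsCocompactDiscontinuousGroup Γ H) ∧
    ((∀ i, ∃ Γ : Subgroup (G i), IsTorsionFreeLattice Γ ⊤) →
      (AdmitsCocompact H ↔ ∃ B : Finset (Fin r), ProjBij H B)) := by
  have hcl : ∀ i, IsClosed (G i : Set (GL (Fin (n i)) ℝ)) := fun i => (hG i).closed
  have hT2 : T2Space (∀ i, G i) := inferInstance
  have hLC : LocallyCompactSpace (∀ i, G i) :=
    Pool.Agent.Helper29.CKP.locallyCompact_of (Pool.Agent.Helper29.CKP.prodM hcl)
  have hA : AdmitsCocompact H → ∃ B : Finset (Fin r), ProjBij H B := fun had =>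
    main_of (Pool.Agent.Helper17.CKF.bk n) (Pool.Agent.Helper17.CKF.bkInv n)
      (Pool.Agent.Helper17.CKF.bkInv_bk n) (Pool.Agent.Helper17.CKF.bk_mul n)
      (Pool.Agent.Helper17.CKF.bk_transpose n) (Pool.Agent.Helper17.CKF.bk_trace n)
      (Pool.Agent.Helper17.CKF.bk_one n) (Pool.Agent.Helper17.CKF.prodM hcl)
      (Pool.Agent.Helper17.CKF.prodM_apply _) (fun i => Pool.Agent.Helper17.CKF.glM (hcl i))
      (fun i => Pool.Agent.Helper17.CKF.glM_apply _)
      (fun i => Pool.Agent.Helper17.CKF.cartan_single (hG i))
      (Pool.Agent.Helper17.CKF.cartan_prod hG) (Pool.Agent.Helper17.CKF.cartan_sub hG hH)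
      (fun _ hX i => Pool.Agent.Helper17.CKF.pSub_apply hX i) h1 had
  have hB : ∀ B : Finset (Fin r), ProjBij H B → ActsProperlyCocompactly (cofactor G B) H :=
    fun B hB => acts_of_projBij hB hcl
      (fun i g hg => Pool.Agent.Helper29.CKP.polar_one (hG i) hg)
      (fun h hh => Pool.Agent.Helper29.CKP.polar_prod hcl hH hh)
      (fun X hX => (Pool.Agent.Helper29.CKP.mem_pSub hcl hH).1 hX)
  refine ⟨hA, fun B h => ⟨hB B h, fun Γ hΓ => isCocompact_of_lattice (hB B h) hΓ⟩, ?_⟩
  intro hlat
  refine ⟨hA, ?_⟩
  rintro ⟨B, h⟩
  obtain ⟨Γ, hΓ⟩ := exists_lattice_cofactor hlat B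
  exact ⟨Γ, isCocompact_of_lattice (hB B h) hΓ⟩

end Pool.Agent.Helper14.CKS.RankOneProducts
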