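import Pool.Agent.Helper14.CKS.ProB
import Pool.Agent.Helper14.CKS.RankOneProductsOld

/-! Products of groups of real rank one, with the definitions of `Grp` and `Pro`. -/

set_option autoImplicit false

namespace Pool.Agent.Helper14.CKS.RankOneProducts

open Matrix Module

theorem main {r : ℕ} {n : Fin r → ℕ} {G : ∀ i, Subgroup (GL (Fin (n i)) ℝ)}
    (hG : ∀ i, IsReductive (G i)) (h1 : ∀ i, IsRankOne (G i))
    {H : Subgroup (∀ i, G i)} (hH : IsReductiveIn H) :
    (AdmitsCocompact H → ∃ B : Finset (Fin r), ProjBij H B) ∧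
    (∀ B : Finset (Fin r), ProjBij H B → ActsProperlyCocompactly (cofactor G B) H ∧
      ∀ Γ : Subgroup (∀ i, G i), IsTorsionFreeLattice Γ (cofactor G B) →
        IsCocompactDiscontinuousGroup Γ H) ∧
    ((∀ i, ∃ Γ : Subgroup (G i), IsTorsionFreeLattice Γ ⊤) →
      (AdmitsCocompact H ↔ ∃ B : Finset (Fin r), ProjBij H B)) := by
  obtain ⟨h2, h3, h4⟩ := result (fun i => reductive_iff.1 (hG i)) (fun i => rankOne_iff.1 (h1 i))
    (reductiveIn_iff.1 hH)
  refine ⟨fun h => h2 (admits_iff.1 h), fun B hB => ?_, fun h => ?_⟩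
  · obtain ⟨h5, h6⟩ := h3 B hB
    exact ⟨acts_iff.2 h5, fun Γ hΓ => cocompact_iff.2 (h6 Γ (lattice_iff.1 hΓ))⟩
  · exact admits_iff.trans (h4 fun i => by
      obtain ⟨Γ, hΓ⟩ := h i
      exact ⟨Γ, lattice_iff.1 hΓ⟩)

end Pool.Agent.Helper14.CKS.RankOneProducts
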