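import Pool.Agent.Helper20.CKP.RList
import Pool.Agent.Helper59.ZD.Final
import Pool.Agent.Helper59.ZD.Grp
import Pool.Agent.Helper59.ZP.Grp
import Pool.Agent.Helper43.ZT.Dyadic

/-!
# Compact Clifford-Klein forms for reductive subgroups of real rank one of O(r,n) and U(r,n)

The definitions `IsReductive`, `pSpace` are in `Pool/Agent/Helper20/CKP/Defs.lean`, `RealRankLeOne`
is in `Pool/Agent/Helper20/CKP/ROne.lean`, `AdmitsCocompact` is in
`Pool/Agent/Helper40/CK/Defs.lean`, `UpqK K r n` (the group `O(r, n)` or `U(r, n)`, as a group of real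
matrices) and `pcK K r n B` (the real form of the matrix with the blocks `0`, `B`, the conjugate
transpose of `B`, `0`) are in `Pool/Agent/Helper29/CKP/UpqK.lean`.

Let `K` be the field of the real or of the complex numbers, `d = finrank ℝ K`, and `H` a reductive
subgroup of real rank at most one of `G = U(r,n;K)`, where `d r (d r + 2) ≤ d n + 4`, such that the
homogeneous space of `G` by `H` admits a cocompact discontinuous group. Then `H` is compact, or the
space `p` of `H` is that of a subgroup `U(1,n;K)` (and then the powers of two less than `2 r`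
divide `n`; so `n` is even if `r = 2`, a multiple of four if `r = 3, 4`), or `K` is real, `r = 2`,
`n` is even and it is that of a subgroup `U(1,n/2)`, or `K` is complex, `r ≥ 2`, `n` is even and it
is that of a subgroup `Sp(1,n/2)`, or `K` is real, `r ≥ 4`, `n` is not `3` modulo `4` and it is that
of a subgroup `Sp(1,[n/4])`. (In the second and in the third case `n` is even, since the matrix `S`
is skew symmetric and invertible; in the last case `N` is a multiple of four and `N ≤ n ≤ N + 2`.) In
particular, if `n` is odd and `r ≥ 2`, then `H` is compact if `K` is complex, or `r = 2, 3`, or `n`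
is `3` modulo `4`; for `K` real, `r = 3` only `O(1,n)` with `n` a multiple of four is left.

The condition `IsReductive` asks for a closed subgroup of the real general linear group, stable under
the transposition, with the real powers of its positive definite elements. A reductive subgroup `H`
of `G` (with finitely many components) is conjugate in `G` to such a group (Mostow).

Outline of the proof.
* `coindex_rank` (Helper29): if `p_H` has an element of rank `s`, then `d (n + 1) ≤ dim p_H + d s`.
  Proof: the rows of the Toeplitz matrix of `y`, made orthonormal, give an odd continuous map from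
  the space of the `y` in `K ^ (n - s + 1)`, without the origin, to the elements of `p` conjugate to
  elements of `p_H`; with `odd_map` (Helper17) and the theorem of Borsuk and Ulam this gives the
  bound.
* `exists_conj_one`, `gram_const` (Helper40): all elements `B` of `p_H` are conjugate up to scalars,
  and the matrices `B Bᵀ` are the multiples of one matrix `D` (quadratic forms with a constant sum
  of squares, if the dimension is large).
* `rank_one_list` (Helper17): the rows of the matrices `B` in suitable coordinates are isometries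
  `A_j`; the triple products and the dimension show that `D` is a multiple of a projection, that the
  `A_j` have the same image, and that they differ by anticommuting complex structures; then the
  rank of `D` is `1`, `2` or `4`.
* `complex_reduce` (Helper29), `complex_two`: the complex case.
* `two_pow_dvd` (Helper43): a theorem of Borsuk and Ulam for products of spheres with twisted
  antipodes, applied to `F` and the matrices of rank one; the number of the common zeros modulo two
  is a binomial coefficient, so `binom(n, i)` is even for `0 < i < r`.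
* `not_two`, `not_four` (Helper59): if `K` is real, `n = N + 1` in the second case or `n = N + 3` in
  the third case, the inclusion of `p_H` minus the origin in the set of the conjugates of the nonzero
  elements of `p_H` is homotopic to its composition with a change of an odd number of signs. This is
  excluded by `rev_coindex` (the degree of an odd map of spheres is odd, so it is not zero).
* `not_two_C` (Helper59): if `K` is complex and `N < n` in the second case, the conjugates of the
  embedding of `p_H` by the unitary diagonal matrices give a family of maps over a disc, which with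
  `F` is excluded by a number of zeros modulo two (a Stiefel-Whitney class of a family over a
  projective space).
* `not_two'` (Helper59): if `K` is real and `r ≥ 3`, four times the degree of the join of `F` and the
  inclusion of `p_H` is zero in the second case, by explicit homotopies which use a contraction of a
  loop of rotations of three rows.
-/

namespace Pool.Agent.Helper14.CKS.RankOneSubgroups

open Matrix Module Pool.Agent.Helper40.CK Pool.Agent.Helper20.CKP Pool.Agent.Helper29.CKP
  Pool.Agent.Helper17.CKF

theorem result {K : Type} [RCLike K] {r n : ℕ}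
    (hn : finrank ℝ K * r * (finrank ℝ K * r + 2) ≤ finrank ℝ K * n + 4)
    {H : Subgroup (UpqK K r n)} (hH : IsReductive (H.map (UpqK K r n).subtype))
    (h1 : RealRankLeOne (H.map (UpqK K r n).subtype)) (had : AdmitsCocompact H) :
    pSpace (H.map (UpqK K r n).subtype) = ⊥ ∨
    ((∀ t, 2 ^ t < 2 * r → 2 ^ t ∣ n) ∧ ∃ u : Fin r → K, u ≠ 0 ∧
      ∀ X, X ∈ pSpace (H.map (UpqK K r n).subtype) ↔
        ∃ x : Fin n → K, X = pcK K r n (vecMulVec u x)) ∨
    (∃ (U : Matrix (Fin r) (Fin 2) K) (S : Matrix (Fin n) (Fin n) K),
      (finrank ℝ K = 1 → r = 2) ∧ Uᴴ * U = 1 ∧ Sᵀ = -S ∧ S * Sᴴ = 1 ∧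
      ∀ X, X ∈ pSpace (H.map (UpqK K r n).subtype) ↔
        ∃ y : Fin n → K, X = pcK K r n (U * Matrix.of ![y, S *ᵥ star y])) ∨
    (finrank ℝ K = 1 ∧ ∃ (N : ℕ) (U : Matrix (Fin r) (Fin 4) K) (A : Matrix (Fin n) (Fin N) K)
      (I J : Matrix (Fin N) (Fin N) K), n ≤ N + 2 ∧ Uᴴ * U = 1 ∧ Aᴴ * A = 1 ∧ Iᵀ = -I ∧
      Jᵀ = -J ∧ I * I = -1 ∧ J * J = -1 ∧ I * J = -(J * I) ∧
      ∀ X, X ∈ pSpace (H.map (UpqK K r n).subtype) ↔ ∃ y : Fin N → K, X = pcK K r n
        (U * Matrix.of ![A *ᵥ y, A *ᵥ (I *ᵥ y), A *ᵥ (J *ᵥ y), A *ᵥ ((I * J) *ᵥ y)])) := by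
  have hmem := fun X => (pdataK K r n).mem_iff hH (X := X)
  rcases rank_one_unitary hn hH h1 had with h | ⟨u, hu, h⟩ | ⟨N, U, A, S, h1, h2, h3, h4, h5, h⟩ |
    ⟨hK, N, U, A, I, J, h1, h2, h3, h4, h5, h6, h7, h8, h⟩
  · exact Or.inl h
  · refine Or.inr (Or.inl ⟨fun t ht => ?_, u, hu, fun X => ?_⟩)
    · exact Pool.Agent.Helper43.ZT.two_pow_dvd (pdataK K r n) hH had hu h t ht
    rw [hmem]
    constructor
    · rintro ⟨B, hB, rfl⟩
      obtain ⟨x, rfl⟩ := (h B).1 hB
      exact ⟨x, rfl⟩
    · rintro ⟨x, rfl⟩
      exact ⟨_, (h _).2 ⟨x, rfl⟩, rfl⟩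
  · have hX : ∀ X, X ∈ pSpace (H.map (UpqK K r n).subtype) ↔
        ∃ y : Fin N → K, X = pcK K r n (U * Matrix.of ![A *ᵥ y, A *ᵥ (S *ᵥ star y)]) := by
      intro X
      rw [hmem]
      constructor
      · rintro ⟨B, hB, rfl⟩
        obtain ⟨x, rfl⟩ := (h B).1 hB
        exact ⟨x, rfl⟩
      · rintro ⟨x, rfl⟩
        exact ⟨_, (h _).2 ⟨x, rfl⟩, rfl⟩
    rcases Nat.eq_zero_or_pos N with hN | hN
    · subst hN
      left
      rw [eq_bot_iff]
      intro X hXm
      obtain ⟨y, rfl⟩ := (hX X).1 hXm
      have h0 : y = 0 := Subsingleton.elim _ _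
      simp only [h0, star_zero, Matrix.mulVec_zero]
      have h6 : (Matrix.of ![(0 : Fin n → K), (0 : Fin n → K)]) = 0 := by
        ext i j
        fin_cases i <;> rfl
      rw [h6, Matrix.mul_zero, map_zero]
      exact Submodule.zero_mem _
    · have hr : 2 ≤ r := by
        have h6 : (Uᴴ * U).rank ≤ r := (Matrix.rank_mul_le_right _ _).trans (Matrix.rank_le_height _)
        rwa [h2, Matrix.rank_one, Fintype.card_fin] at h6
      have h6 : (Aᴴ * A).rank ≤ n := (Matrix.rank_mul_le_right _ _).trans (Matrix.rank_le_height _)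
      rw [h3, Matrix.rank_one, Fintype.card_fin] at h6
      have hNn : N = n := by
        by_contra hne
        rcases RCLike.I_eq_zero_or_im_I_eq_one (K := K) with hI | hI
        · exact Pool.Agent.Helper59.ZD.not_two (finrank_R hI) hH had (by omega) hN h2 h3 h4 h5 hX
        · exact Pool.Agent.Helper59.ZP.not_two_C (finrank_K hI) hH had (by omega) hN h2 h3 h4 h5 hX
      subst hNn
      have hA' : A * Aᴴ = 1 := mul_eq_one_comm.1 h3
      have hAT : Aᵀ * (Aᴴ)ᵀ = 1 := by
        rw [← transpose_mul, h3, transpose_one]
      refine Or.inr (Or.inr (Or.inl ⟨U, A * S * Aᵀ, fun hK => ?_, h2, ?_, ?_, fun X => ?_⟩))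
      · by_contra hr2
        have hr3 : 3 ≤ r := by omega
        rw [hK, one_mul, one_mul] at hn
        have h7 : 4 ≤ N := by nlinarith
        exact Pool.Agent.Helper59.ZD.not_two' hK hr3 hH had h6 h7 h2 h3 h4 h5 hX
      · rw [transpose_mul, transpose_mul, transpose_transpose, h4, Matrix.neg_mul, Matrix.mul_neg,
          Matrix.mul_assoc]
      · have h8 : (Aᵀ)ᴴ = (Aᴴ)ᵀ := rfl
        rw [conjTranspose_mul, conjTranspose_mul, h8]
        calc A * S * Aᵀ * (Aᴴᵀ * (Sᴴ * Aᴴ)) = A * (S * (Aᵀ * Aᴴᵀ) * Sᴴ) * Aᴴ := by
              simp only [Matrix.mul_assoc]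
          _ = 1 := by rw [hAT, Matrix.mul_one, h5, Matrix.mul_one, hA']
      · have key : ∀ y : Fin N → K, (A * S * Aᵀ) *ᵥ star (A *ᵥ y) = A *ᵥ (S *ᵥ star y) := by
          intro y
          have h9 : star (A *ᵥ y) = Aᴴᵀ *ᵥ star y := by
            rw [star_mulVec, mulVec_transpose]
          rw [h9, mulVec_mulVec, mulVec_mulVec, Matrix.mul_assoc (A * S), hAT, Matrix.mul_one]
        rw [hX]
        constructor
        · rintro ⟨y, rfl⟩
          exact ⟨A *ᵥ y, by rw [key]⟩
        · rintro ⟨z, rfl⟩
          refine ⟨Aᴴ *ᵥ z, ?_⟩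
          have h10 : A *ᵥ (Aᴴ *ᵥ z) = z := by
            rw [mulVec_mulVec, hA', one_mulVec]
          rw [← key, h10]
  · have hX : ∀ X, X ∈ pSpace (H.map (UpqK K r n).subtype) ↔ ∃ y : Fin N → K, X = pcK K r n
        (U * Matrix.of ![A *ᵥ y, A *ᵥ (I *ᵥ y), A *ᵥ (J *ᵥ y), A *ᵥ ((I * J) *ᵥ y)]) := by
      intro X
      rw [hmem]
      constructor
      · rintro ⟨B, hB, rfl⟩
        obtain ⟨x, rfl⟩ := (h B).1 hB
        exact ⟨x, rfl⟩
      · rintro ⟨x, rfl⟩
        exact ⟨_, (h _).2 ⟨x, rfl⟩, rfl⟩
    rcases Nat.eq_zero_or_pos N with hN | hN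
    · subst hN
      left
      rw [eq_bot_iff]
      intro X hXm
      obtain ⟨y, rfl⟩ := (hX X).1 hXm
      have h0 : y = 0 := Subsingleton.elim _ _
      simp only [h0, Matrix.mulVec_zero]
      have h6 : (Matrix.of ![(0 : Fin n → K), (0 : Fin n → K), (0 : Fin n → K),
          (0 : Fin n → K)]) = 0 := by
        ext i j
        fin_cases i <;> rfl
      rw [h6, Matrix.mul_zero, map_zero]
      exact Submodule.zero_mem _
    · refine Or.inr (Or.inr (Or.inr ⟨hK, N, U, A, I, J, ?_, h2, h3, h4, h5, h6, h7, h8, hX⟩))
      by_contra hlt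
      exact Pool.Agent.Helper59.ZD.not_four hK hH had (by omega) hN h2 h3 h4 h5 h6 h7 h8 hX

end Pool.Agent.Helper14.CKS.RankOneSubgroups
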