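import Pool.Agent.Helper14.CKS.Grp

/-! Real rank at most one: definition -/

set_option autoImplicit false

namespace Pool.Agent.Helper14.CKS

open Matrix Module

/-- The real rank of `G` is at most one: two commuting elements of `pSpace G` are linearly
dependent. -/
def RealRankLeOne {n : ℕ} (G : Subgroup (GL (Fin n) ℝ)) : Prop :=
  ∀ X ∈ pSpace G, ∀ Y ∈ pSpace G, X * Y = Y * X → ¬ LinearIndependent ℝ ![X, Y]

end Pool.Agent.Helper14.CKS
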