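import Pool.Agent.Helper14.CKS.UpqB
import Pool.Agent.Helper14.CKS.Rk
import Pool.Agent.Helper14.CKS.RankOneSubgroupsOld

/-! Subgroups of real rank one, with the definitions of `Grp`, `Upq`, `Rk`. -/

set_option autoImplicit false

namespace Pool.Agent.Helper14.CKS.RankOneSubgroups

open Matrix Module

theorem main {K : Type} [RCLike K] {r n : ℕ}
    (hn : finrank ℝ K * r * (finrank ℝ K * r + 2) ≤ finrank ℝ K * n + 4)
    {H : Subgroup (UpqK K r n)} (hH : IsReductive (H.map (UpqK K r n).subtype))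
    (h1 : RealRankLeOne (H.map (UpqK K r n).subtype)) (had : AdmitsCocompact H) :
    pSpace (H.map (UpqK K r n).subtype) = ⊥ ∨
    ((∀ t, 2 ^ t < 2 * r → 2 ^ t ∣ n) ∧ ∃ u : Fin r → K, u ≠ 0 ∧
      ∀ X, X ∈ pSpace (H.map (UpqK K r n).subtype) ↔
        ∃ x : Fin n → K, X = pcK K r n (vecMulVec u x)) ∨
    (∃ (U : Matrix (Fin r) (Fin 2) K) (S : Matrix (Fin n) (Fin n) K),
      (finrank ℝ K = 1 → r = 2) ∧ Uᴴ * U = 1 ∧ Sᵀ = -S ∧ S * Sᴴ = 1 ∧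
      ∀ X, X ∈ pSpace (H.map (UpqK K r n).subtype) ↔
        ∃ y : Fin n → K, X = pcK K r n (U * Matrix.of ![y, S *ᵥ star y])) ∨
    (finrank ℝ K = 1 ∧ ∃ (N : ℕ) (U : Matrix (Fin r) (Fin 4) K) (A : Matrix (Fin n) (Fin N) K)
      (I J : Matrix (Fin N) (Fin N) K), n ≤ N + 2 ∧ Uᴴ * U = 1 ∧ Aᴴ * A = 1 ∧ Iᵀ = -I ∧
      Jᵀ = -J ∧ I * I = -1 ∧ J * J = -1 ∧ I * J = -(J * I) ∧
      ∀ X, X ∈ pSpace (H.map (UpqK K r n).subtype) ↔ ∃ y : Fin N → K, X = pcK K r n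
        (U * Matrix.of ![A *ᵥ y, A *ᵥ (I *ᵥ y), A *ᵥ (J *ᵥ y), A *ᵥ ((I * J) *ᵥ y)])) :=
  result hn (H := H) (reductive_iff.1 hH) h1 (admits_iff.1 had)

end Pool.Agent.Helper14.CKS.RankOneSubgroups
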