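import Pool.Agent.Helper29.CKP.UpqK

/-!
# The groups `O(r, n)` and `U(r, n)`, as groups of real matrices: definitions
-/

set_option autoImplicit false

open Matrix

namespace Pool.Agent.Helper14.CKS

variable {K : Type} [RCLike K] {r n : ℕ}

/-- The square matrix with the blocks `A`, `B`, `C`, `D`. -/
noncomputable def block {F : Type} {r n : ℕ} (A : Matrix (Fin r) (Fin r) F)
    (B : Matrix (Fin r) (Fin n) F) (C : Matrix (Fin n) (Fin r) F) (D : Matrix (Fin n) (Fin n) F) :
    Matrix (Fin (r + n)) (Fin (r + n)) F :=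
  (fromBlocks A B C D).submatrix finSumFinEquiv.symm finSumFinEquiv.symm

/-- The real matrix `(re Z, -im Z; im Z, re Z)` of a matrix `Z` with real or complex entries. -/
noncomputable def realForm {m : ℕ} (Z : Matrix (Fin m) (Fin m) K) :
    Matrix (Fin (m + m)) (Fin (m + m)) ℝ :=
  block (Z.map RCLike.re) (-Z.map RCLike.im) (Z.map RCLike.im) (Z.map RCLike.re)

/-- The diagonal matrix with `r` entries `1` and `n` entries `-1`. -/
noncomputable def J (K : Type) [RCLike K] (r n : ℕ) : Matrix (Fin (r + n)) (Fin (r + n)) K :=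
  Matrix.diagonal fun i => if (i : ℕ) < r then 1 else -1

/-- The real forms of the matrices `Z` with `Zᴴ J Z = J`. -/
def UpqSet (K : Type) [RCLike K] (r n : ℕ) : Set (GL (Fin ((r + n) + (r + n))) ℝ) :=
  {g | ∃ Z : Matrix (Fin (r + n)) (Fin (r + n)) K,
    (g : Matrix (Fin ((r + n) + (r + n))) (Fin ((r + n) + (r + n))) ℝ) = realForm Z ∧
      Zᴴ * J K r n * Z = J K r n}

theorem UpqSet_mul {a b : GL (Fin ((r + n) + (r + n))) ℝ} (ha : a ∈ UpqSet K r n)
    (hb : b ∈ UpqSet K r n) : a * b ∈ UpqSet K r n :=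
  (Pool.Agent.Helper29.CKP.UpqK K r n).mul_mem ha hb

theorem UpqSet_one : 1 ∈ UpqSet K r n := (Pool.Agent.Helper29.CKP.UpqK K r n).one_mem

theorem UpqSet_inv {a : GL (Fin ((r + n) + (r + n))) ℝ} (ha : a ∈ UpqSet K r n) :
    a⁻¹ ∈ UpqSet K r n :=
  (Pool.Agent.Helper29.CKP.UpqK K r n).inv_mem ha

/-- The group `U(r, n)` of the matrices `Z` with `Zᴴ J Z = J`, as a group of real matrices. -/
def UpqK (K : Type) [RCLike K] (r n : ℕ) : Subgroup (GL (Fin ((r + n) + (r + n))) ℝ) where
  carrier := UpqSet K r n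
  mul_mem' := UpqSet_mul
  one_mem' := UpqSet_one
  inv_mem' := UpqSet_inv

/-- The real form of the matrix `(0, B; Bᴴ, 0)`. -/
noncomputable def pcForm (B : Matrix (Fin r) (Fin n) K) :
    Matrix (Fin ((r + n) + (r + n))) (Fin ((r + n) + (r + n))) ℝ := realForm (block 0 B Bᴴ 0)

theorem pcForm_add (B B' : Matrix (Fin r) (Fin n) K) : pcForm (B + B') = pcForm B + pcForm B' :=
  (Pool.Agent.Helper29.CKP.pcK K r n).map_add B B'

theorem pcForm_smul (c : ℝ) (B : Matrix (Fin r) (Fin n) K) : pcForm (c • B) = c • pcForm B :=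
  (Pool.Agent.Helper29.CKP.pcK K r n).map_smul c B

/-- The real form of the matrix `(0, B; Bᴴ, 0)`, as a linear map of `B`. -/
noncomputable def pcK (K : Type) [RCLike K] (r n : ℕ) :
    Matrix (Fin r) (Fin n) K →ₗ[ℝ] Matrix (Fin ((r + n) + (r + n))) (Fin ((r + n) + (r + n))) ℝ where
  toFun := pcForm
  map_add' := pcForm_add
  map_smul' := pcForm_smul

end Pool.Agent.Helper14.CKS
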