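import Pool.Agent.Helper14.CKS.Grp
import Pool.Agent.Helper14.CKS.Upq

/-!
# The list for `U(2, n; K)` and `U(3, n; K)`: definition
-/

set_option autoImplicit false

namespace Pool.Agent.Helper14.CKS

open Matrix Module

/-- The spaces `p` of the list for `U(r, n; K)`, `r = 2, 3`: zero, the whole space, or `2 ^ (r - 1)`
divides `n` and it is the space of the `P(B)` where the columns of `B` are in a fixed subspace of
`K ^ r`, which is not zero and not the whole space, or `n` is even, `K` is complex or `r = 2`, and it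
is the space of the `P(U B)` where `B` has the rows `x`, `S (conj x)` for a fixed skew matrix `S` with
orthonormal columns and a fixed matrix `U` with two orthonormal columns. -/
def UList (K : Type) [RCLike K] (r n : ℕ)
    (q : Submodule ℝ (Matrix (Fin ((r + n) + (r + n))) (Fin ((r + n) + (r + n))) ℝ)) : Prop :=
  q = ⊥ ∨ q = pSpace (UpqK K r n) ∨
  (2 ^ (r - 1) ∣ n ∧ ∃ W : Submodule K (Fin r → K), W ≠ ⊥ ∧ W ≠ ⊤ ∧ ∀ X, X ∈ q ↔
    ∃ B : Matrix (Fin r) (Fin n) K, (∀ j, (fun i => B i j) ∈ W) ∧ X = pcK K r n B) ∨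
  (Even n ∧ (finrank ℝ K = 1 → r = 2) ∧
    ∃ (U : Matrix (Fin r) (Fin 2) K) (S : Matrix (Fin n) (Fin n) K),
    Uᴴ * U = 1 ∧ Sᵀ = -S ∧ S * Sᴴ = 1 ∧
    ∀ X, X ∈ q ↔ ∃ x : Fin n → K, X = pcK K r n (U * Matrix.of ![x, S *ᵥ star x]))

end Pool.Agent.Helper14.CKS
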