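import Pool.Agent.Helper20.CKP.StdE
import Pool.Agent.Helper20.CKP.EvenN
import Pool.Agent.Helper20.CKP.Conv
import Pool.Agent.Helper40.CK.ClassK
import Pool.Agent.Helper43.ZT.Dyadic
import Pool.Agent.Helper59.ZD.Final
import Pool.Agent.Helper59.ZD.Grp
import Pool.Agent.Helper59.ZP.Grp
import Pool.Agent.Helper20.CK3.Final
import Pool.Agent.Helper20.CK3.RankOne3
import Pool.Agent.Helper20.CK3.Uni

/-!
# Compact Clifford-Klein forms for the groups O(2,n), U(2,n), O(3,n) and U(3,n)

The definitions `IsReductive`, `pSpace`, `ActsProperlyCocompactly`, `IsTorsionFreeLattice` are in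
`Pool/Agent/Helper20/CKP/Defs.lean`, `UList` is in `Pool/Agent/Helper20/CK3/Uni.lean`,
`AdmitsCocompact`, `IsCocompactDiscontinuousGroup` are in `Pool/Agent/Helper40/CK/Defs.lean`,
`UpqK K r n` (the group `O(r, n)` or `U(r, n)`, as a group of real matrices) and `pcK K r n B` (the
real form of the matrix with the blocks `0`, `B`, the conjugate transpose of `B`, `0`) are in
`Pool/Agent/Helper29/CKP/UpqK.lean`.

Let `K` be the field of the real or of the complex numbers, `G = U(r,n;K)` where `r = 2` and
`n ≥ 3`, or `r = 3` and `n ≥ 11` (`K` real), `n ≥ 22` (`K` complex), and `H` a reductive subgroup of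
`G`. If the homogeneous space of `G` by `H` admits a cocompact discontinuous group, then `H` is
compact, or the homogeneous space is compact, or `2 ^ (r - 1)` divides `n` and the space `p` of `H` is
that of a subgroup `U(s,n;K)`, where `0 < s < r`, or `n` is even and it is that of a subgroup
`U(1,n/2)` (`K` real, `r = 2`) or `Sp(1,n/2)` (`K` complex). If `r = 2`, or `n` is not a multiple of
four (`K` real) or odd (`K` complex), the converse holds; in the second case there are only compact
`H` and compact homogeneous spaces in the list.

The condition `IsReductive` asks for a closed subgroup of the real general linear group, stable under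
the transposition, with the real powers of its positive definite elements. Every real reductive
linear group with finitely many components has such a form in suitable coordinates, and a reductive
subgroup `H` of `G` is conjugate in `G` to one which is stable under the transposition (Mostow); so
the theorem covers all reductive subgroups `H` up to conjugacy in `G`.

Outline of the proof for two rows.
* `odd_map` (Helper17): a cocompact discontinuous group gives an odd continuous map from the
  orthogonal complement of `p_H`, without the origin, to the elements of `p` which are not conjugate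
  to an element of `p_H`.
* `exists_ratioK` (Helper40, Helper17): an odd continuous map from a real space of dimension greater
  than `n * finrank ℝ K`, without the origin, to the matrices with two rows takes every ratio of the
  singular values (Borsuk and Ulam, and a lifting argument). So the dimension of `p_H` is at least
  `n * finrank ℝ K` if `H` is not compact.
* `PData.ratio_or`: all elements of `p_H` have the same ratio of singular values, or `p_H = p`.
* `classifyK` (Helper29, Helper40): the real linear spaces of matrices with two rows, of dimension at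
  least `n * finrank ℝ K`, with one ratio of singular values and stable under triple products.
* `PData.even_n`: a theorem of Borsuk and Ulam for products of spheres (Helper29) excludes `U(1,n;K)`
  for odd `n`.
* `acts_four_three`: the two groups of the list act properly and cocompactly on the homogeneous
  spaces of each other.

Outline of the proof for three rows.
* Real rank one: the list of `RankOneSubgroups` (same folder).
* Real rank two. Let `F` be the odd map, from a real space of dimension `N` without the origin. The
  maximal commuting spaces of `p_H` are planes; one of them consists of diagonal matrices, and is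
  given by an equation `ν 0 s 0 + ν 1 s 1 + ν 2 s 2 = 0` (`s_SIM`, Helper94). The sequences of the
  singular values of the values of `F` avoid the images of the plane by the permutations and the
  changes of signs. So they miss one of the walls of the chamber of the decreasing sequences of
  nonnegative numbers (`s_CH`, Helper43).
* If `F` misses a wall, then `N ≤ n * finrank ℝ K`, with equality for the third wall only if `n` is a
  multiple of four (`s_T1`, `s_T2`, `s_T3`, Helper30). For the first and the second wall the
  projector to the first or to the last singular direction is an even family of lines, which comes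
  from a family of unit vectors `w`; it is even, since an odd one would have a zero, and the vectors
  `star w ᵥ* F` are then an odd map without zeros. For the third wall the Gram matrix is invertible
  and a theorem of Borsuk and Ulam for products of spheres applies.
* So the dimension of `p_H` is at least `2 n * finrank ℝ K`, and `p_H` is given by an equation
  `star w ᵥ* B = 0` (`s_ALG`: a Lie triple system with a plane of diagonal matrices as a maximal
  commuting space; if the plane is not a coordinate plane, the products of the elements with the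
  first three columns zero show that they have at most one independent row); then `N` is equal to
  `n * finrank ℝ K`, and `F` misses the third wall.
* Real rank three: `F` has no value to take, so `N = 0`.
-/

namespace Pool.Agent.Helper14.CKS.UnitaryTwoThree

open Matrix Module Pool.Agent.Helper40.CK Pool.Agent.Helper20.CKP Pool.Agent.Helper29.CKP
  Pool.Agent.Helper17.CKF Pool.Agent.Helper20.CK3

/-- The necessary condition for two rows. -/
theorem list_of_admits {K : Type} [RCLike K] {n : ℕ} (hn : 3 ≤ n) {H : Subgroup (UpqK K 2 n)}
    (hH : IsReductive (H.map (UpqK K 2 n).subtype)) (had : AdmitsCocompact H) :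
    TwoList K n (pSpace (H.map (UpqK K 2 n).subtype)) := by
  rcases (pdataK K 2 n).list
    (A₁ := fun Q => ∃ u : Fin 2 → K, u ≠ 0 ∧ ∀ B, B ∈ Q ↔ ∃ x, B = vecMulVec u x)
    (A₂ := fun Q => Even n ∧ ∃ S : Matrix (Fin n) (Fin n) K, Sᵀ = -S ∧ S * Sᴴ = 1 ∧
      ∀ B, B ∈ Q ↔ ∃ x, B = Matrix.of ![x, S *ᵥ star x])
    (fun E _ _ _ _ _ _ _ hE B hB hodd δ h0 h1 =>
      exists_ratioK (by omega) hE B hB hodd δ h0 h1)
    (fun Q hQ δ hδ htri => classifyK hn Q hQ δ hδ htri) hH had with
    h | h | ⟨Q, hQ, ⟨u, hu, h⟩ | ⟨hev, S, h1, h2, h⟩⟩
  · exact Or.inl h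
  · exact Or.inr (Or.inl h)
  · have hX : ∀ X, X ∈ pSpace (H.map (UpqK K 2 n).subtype) ↔
        ∃ x : Fin n → K, X = pcK K 2 n (vecMulVec u x) := by
      intro X
      rw [hQ]
      constructor
      · rintro ⟨B, hB, rfl⟩
        obtain ⟨x, rfl⟩ := (h B).1 hB
        exact ⟨x, rfl⟩
      · rintro ⟨x, rfl⟩
        exact ⟨_, (h _).2 ⟨x, rfl⟩, rfl⟩
    have hev : Even n := (pdataK K (0 + 2) n).even_n hH had hu fun B => by
      rw [Submodule.mem_comap]
      constructor
      · intro hB
        obtain ⟨x, e⟩ := (hX _).1 hB
        exact ⟨x, pcK_inj e⟩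
      · rintro ⟨x, rfl⟩
        exact (hX _).2 ⟨x, rfl⟩
    exact Or.inr (Or.inr ⟨hev, Or.inl ⟨u, hu, hX⟩⟩)
  · refine Or.inr (Or.inr ⟨hev, Or.inr ⟨S, h1, h2, fun X => ?_⟩⟩)
    rw [hQ]
    constructor
    · rintro ⟨B, hB, rfl⟩
      obtain ⟨x, rfl⟩ := (h B).1 hB
      exact ⟨x, rfl⟩
    · rintro ⟨x, rfl⟩
      exact ⟨_, (h _).2 ⟨x, rfl⟩, rfl⟩

/-- The necessary condition for three rows. -/
theorem three_list {K : Type} [RCLike K] {n : ℕ}
    (hn : finrank ℝ K * 3 * (finrank ℝ K * 3 + 2) ≤ finrank ℝ K * n + 4)
    {H : Subgroup (UpqK K 3 n)} (hH : IsReductive (H.map (UpqK K 3 n).subtype))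
    (had : AdmitsCocompact H) : ThreeList K n (pSpace (H.map (UpqK K 3 n).subtype)) := by
  by_cases h1 : RealRankLeOne (H.map (UpqK K 3 n).subtype)
  · rcases rank_one_list hn hH h1 had with h | ⟨hdvd, u, hu, h⟩ | ⟨U, S, hr, hU, hT, hS, h⟩ |
      ⟨hK, N, U, A, I, J, h1, h2, -⟩
    · exact Or.inl h
    · exact Or.inr (Or.inr (Or.inl ⟨hdvd 2 (by norm_num), u, hu, h⟩))
    · refine Or.inr (Or.inr (Or.inr (Or.inr ⟨?_, even_of_skew hT hS, U, S, hU, hT, hS, h⟩)))
      rcases RCLike.I_eq_zero_or_im_I_eq_one (K := K) with hI | hI
      · exact absurd (hr (finrank_R hI)) (by norm_num)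
      · exact finrank_K hI
    · exfalso
      have h3 : (Uᴴ * U).rank ≤ 3 := (Matrix.rank_mul_le_right _ _).trans (Matrix.rank_le_height _)
      rw [h2, Matrix.rank_one, Fintype.card_fin] at h3
      omega
  · have hd : 0 < finrank ℝ K := Module.finrank_pos
    have hn11 : 11 ≤ n := by nlinarith
    rcases s_R23 K n hn11 H hH h1 had with h | ⟨h4, w, hw, h⟩
    · exact Or.inr (Or.inl h)
    · exact Or.inr (Or.inr (Or.inr (Or.inl ⟨h4, w, hw, h⟩)))

theorem result {K : Type} [RCLike K] {r n : ℕ}
    (hrn : (r = 2 ∧ 3 ≤ n) ∨
      (r = 3 ∧ finrank ℝ K * r * (finrank ℝ K * r + 2) ≤ finrank ℝ K * n + 4))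
    {H : Subgroup (UpqK K r n)} (hH : IsReductive (H.map (UpqK K r n).subtype)) :
    (AdmitsCocompact H → UList K r n (pSpace (H.map (UpqK K r n).subtype))) ∧
    (UList K r n (pSpace (H.map (UpqK K r n).subtype)) →
      (r = 2 ∨ pSpace (H.map (UpqK K r n).subtype) = ⊥ ∨
        pSpace (H.map (UpqK K r n).subtype) = pSpace (UpqK K r n)) →
      ∃ L : Subgroup (UpqK K r n), IsReductive (L.map (UpqK K r n).subtype) ∧
        ActsProperlyCocompactly L H ∧
        ∀ Γ : Subgroup (UpqK K r n), IsTorsionFreeLattice Γ L →
          IsCocompactDiscontinuousGroup Γ H) ∧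
    ((∀ L : Subgroup (UpqK K r n), IsReductive (L.map (UpqK K r n).subtype) →
        ∃ Γ : Subgroup (UpqK K r n), IsTorsionFreeLattice Γ L) →
      (r = 2 ∨ (¬ 4 ∣ n ∧ (finrank ℝ K = 1 ∨ ¬ Even n))) →
      (AdmitsCocompact H ↔ UList K r n (pSpace (H.map (UpqK K r n).subtype)))) := by
  have := locallyCompact_of (oneM (isReductive_upqK K r n).closed)
  have := t2_of (oneM (isReductive_upqK K r n).closed)
  have hA : AdmitsCocompact H → UList K r n (pSpace (H.map (UpqK K r n).subtype)) := by
    rcases hrn with ⟨rfl, hn⟩ | ⟨rfl, hn⟩
    · exact fun h => ulist_of_two (list_of_admits hn hH h)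
    · exact fun h => ulist_of_three (three_list hn hH h)
  have hB : UList K r n (pSpace (H.map (UpqK K r n).subtype)) →
      (r = 2 ∨ pSpace (H.map (UpqK K r n).subtype) = ⊥ ∨
        pSpace (H.map (UpqK K r n).subtype) = pSpace (UpqK K r n)) →
      ∃ L : Subgroup (UpqK K r n), IsReductive (L.map (UpqK K r n).subtype) ∧
        ActsProperlyCocompactly L H ∧
        ∀ Γ : Subgroup (UpqK K r n), IsTorsionFreeLattice Γ L →
          IsCocompactDiscontinuousGroup Γ H := by
    intro h h'
    obtain ⟨L, hL, hLH⟩ : ∃ L : Subgroup (UpqK K r n), IsReductive (L.map (UpqK K r n).subtype) ∧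
        ActsProperlyCocompactly L H := by
      rcases h' with rfl | h'
      · exact exists_standard hH (two_of_ulist h)
      · exact exists_trivial hH h'
    exact ⟨L, hL, hLH, fun Γ hΓ => isCocompact_of_lattice hLH hΓ⟩
  refine ⟨hA, hB, fun hlat hc => ⟨hA, fun h => ?_⟩⟩
  have h' : r = 2 ∨ pSpace (H.map (UpqK K r n).subtype) = ⊥ ∨
      pSpace (H.map (UpqK K r n).subtype) = pSpace (UpqK K r n) := by
    rcases hrn with ⟨rfl, -⟩ | ⟨rfl, -⟩
    · exact Or.inl rfl
    · rcases hc with hc | ⟨h4, hc⟩
      · exact Or.inl hc
      · rcases h with h | h | ⟨h, -⟩ | ⟨h, hK, -⟩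
        · exact Or.inr (Or.inl h)
        · exact Or.inr (Or.inr h)
        · exact absurd (by simpa using h) h4
        · rcases hc with hc | hc
          · exact Or.inl (hK hc)
          · exact absurd h hc
  obtain ⟨L, hL, -, hΓ⟩ := hB h h'
  obtain ⟨Γ, hΓL⟩ := hlat L hL
  exact ⟨Γ, hΓ Γ hΓL⟩

end Pool.Agent.Helper14.CKS.UnitaryTwoThree
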