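import Pool.Agent.Helper14.CKS.UpqB
import Pool.Agent.Helper14.CKS.Uli
import Pool.Agent.Helper14.CKS.UnitaryTwoThreeOld

/-! `U(2, n; K)` and `U(3, n; K)`, with the definitions of `Grp`, `Upq`, `Uli`. -/

set_option autoImplicit false

namespace Pool.Agent.Helper14.CKS.UnitaryTwoThree

open Matrix Module

theorem ulist_iff (K : Type) [RCLike K] (r n : ℕ)
    (q : Submodule ℝ (Matrix (Fin ((r + n) + (r + n))) (Fin ((r + n) + (r + n))) ℝ)) :
    UList K r n q ↔ Pool.Agent.Helper20.CK3.UList K r n q := Iff.rfl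

theorem main {K : Type} [RCLike K] {r n : ℕ}
    (hrn : (r = 2 ∧ 3 ≤ n) ∨
      (r = 3 ∧ finrank ℝ K * r * (finrank ℝ K * r + 2) ≤ finrank ℝ K * n + 4))
    {H : Subgroup (UpqK K r n)} (hH : IsReductive (H.map (UpqK K r n).subtype)) :
    (AdmitsCocompact H → UList K r n (pSpace (H.map (UpqK K r n).subtype))) ∧
    (UList K r n (pSpace (H.map (UpqK K r n).subtype)) →
      (r = 2 ∨ pSpace (H.map (UpqK K r n).subtype) = ⊥ ∨
        pSpace (H.map (UpqK K r n).subtype) = pSpace (UpqK K r n)) →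
      ∃ L : Subgroup (UpqK K r n), IsReductive (L.map (UpqK K r n).subtype) ∧
        ActsProperlyCocompactly L H ∧
        ∀ Γ : Subgroup (UpqK K r n), IsTorsionFreeLattice Γ L →
          IsCocompactDiscontinuousGroup Γ H) ∧
    ((∀ L : Subgroup (UpqK K r n), IsReductive (L.map (UpqK K r n).subtype) →
        ∃ Γ : Subgroup (UpqK K r n), IsTorsionFreeLattice Γ L) →
      (r = 2 ∨ (¬ 4 ∣ n ∧ (finrank ℝ K = 1 ∨ ¬ Even n))) →
      (AdmitsCocompact H ↔ UList K r n (pSpace (H.map (UpqK K r n).subtype)))) := by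
  obtain ⟨h1, h2, h3⟩ := result hrn (H := H) (reductive_iff.1 hH)
  refine ⟨fun h => (ulist_iff K r n _).2 (h1 (admits_iff.1 h)), fun h h' => ?_, fun hlat hc => ?_⟩
  · obtain ⟨L, hL, hLH, hΓ⟩ := h2 ((ulist_iff K r n _).1 h) h'
    exact ⟨L, reductive_iff.2 hL, acts_iff.2 hLH, fun Γ hΓL => cocompact_iff.2 (hΓ Γ (lattice_iff.1 hΓL))⟩
  · exact admits_iff.trans ((h3 (fun L hL => by
      obtain ⟨Γ, hΓ⟩ := hlat L (reductive_iff.2 hL)
      exact ⟨Γ, lattice_iff.1 hΓ⟩) hc).trans (ulist_iff K r n _).symm)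

end Pool.Agent.Helper14.CKS.UnitaryTwoThree
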