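import Pool.Agent.Helper14.CKS.GrpB
import Pool.Agent.Helper14.CKS.Upq

/-! The definitions of `Upq` agree with those of `Helper29/CKP/UpqK`. -/

set_option autoImplicit false

namespace Pool.Agent.Helper14.CKS

theorem UpqK_eq (K : Type) [RCLike K] (r n : ℕ) :
    UpqK K r n = Pool.Agent.Helper29.CKP.UpqK K r n := rfl

theorem pcK_eq (K : Type) [RCLike K] (r n : ℕ) :
    pcK K r n = Pool.Agent.Helper29.CKP.pcK K r n := rfl

end Pool.Agent.Helper14.CKS
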